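import Pool.Agent.W_MP_6a62c9_co.Cone

/-!
The test function of one block: `g = ∑_{|S| ≤ r} θ^{|S|} ∏_{i ∈ S} s_i`.
-/

namespace Pool.Agent.W_MP_6a62c9_co

open Finset NNReal

variable {m : ℕ}

/-- Flip membership of `i` in `S`. -/
def flip (i : Fin m) (S : Finset (Fin m)) : Finset (Fin m) :=
  if i ∈ S then S.erase i else insert i S

theorem flip_flip (i : Fin m) : Function.Involutive (flip i) := by
  intro S
  unfold flip
  by_cases h : i ∈ S
  · simp [h]
  · simp [h]

/-- The weight `θ^{|S|}` truncated at radius `r`. -/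
noncomputable def wt (r : ℕ) (θ : ℝ) (S : Finset (Fin m)) : ℝ :=
  if S.card ≤ r then θ ^ S.card else 0

theorem wt_nonneg (r : ℕ) {θ : ℝ} (hθ : 0 ≤ θ) (S : Finset (Fin m)) : 0 ≤ wt r θ S := by
  unfold wt
  split_ifs
  · positivity
  · exact le_rfl

theorem card_flip_mem {i : Fin m} {S : Finset (Fin m)} (h : i ∈ S) :
    (flip i S).card = S.card - 1 := by
  simp [flip, h, Finset.card_erase_of_mem]

theorem card_flip_not_mem {i : Fin m} {S : Finset (Fin m)} (h : i ∉ S) :
    (flip i S).card = S.card + 1 := by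
  simp [flip, h, Finset.card_insert_of_notMem]

/-- The function `wt` is a positive supersolution: `A wt ≥ θ m wt`. -/
theorem sum_wt_flip (r : ℕ) {θ : ℝ} (hθ0 : 0 < θ) (hθ1 : θ ≤ 1) (hr : (m : ℝ) * θ ^ 2 ≤ r)
    (S : Finset (Fin m)) : (θ * m) * wt r θ S ≤ ∑ i, wt r θ (flip i S) := by
  rcases lt_trichotomy S.card r with hlt | heq | hgt
  · -- interior
    have h1 : ∀ i, θ ^ (S.card + 1) ≤ wt r θ (flip i S) := by
      intro i
      by_cases h : i ∈ S
      · have hc := card_flip_mem h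
        have hpos : 0 < S.card := Finset.card_pos.2 ⟨i, h⟩
        rw [wt, hc, if_pos (by omega)]
        exact pow_le_pow_of_le_one hθ0.le hθ1 (by omega)
      · have hc := card_flip_not_mem h
        rw [wt, hc, if_pos (by omega)]
    calc (θ * m) * wt r θ S = ∑ _i : Fin m, θ ^ (S.card + 1) := by
          rw [wt, if_pos hlt.le]
          simp only [Finset.sum_const, Finset.card_univ, Fintype.card_fin, nsmul_eq_mul]
          ring
      _ ≤ _ := Finset.sum_le_sum (fun i _ => h1 i)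
  · -- boundary
    rcases Nat.eq_zero_or_pos r with hr0 | hrpos
    · have hm : (m : ℝ) = 0 := by
        have h2 : (m : ℝ) * θ ^ 2 ≤ 0 := by rw [hr0] at hr; simpa using hr
        have h3 : 0 < θ ^ 2 := by positivity
        have h4 : (0 : ℝ) ≤ m := Nat.cast_nonneg m
        nlinarith
      rw [hm]
      simp only [mul_zero, zero_mul]
      exact Finset.sum_nonneg (fun i _ => wt_nonneg r hθ0.le _)
    · have h1 : ∑ i ∈ S, wt r θ (flip i S) ≤ ∑ i, wt r θ (flip i S) :=
        Finset.sum_le_sum_of_subset_of_nonneg (Finset.subset_univ _)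
          (fun i _ _ => wt_nonneg r hθ0.le _)
      have h2 : ∑ i ∈ S, wt r θ (flip i S) = (r : ℝ) * θ ^ (r - 1) := by
        rw [Finset.sum_congr rfl (g := fun _ => θ ^ (r - 1))]
        · rw [Finset.sum_const, heq, nsmul_eq_mul]
        · intro i hi
          rw [wt, card_flip_mem hi, if_pos (by omega), heq]
      have h3 : (θ * m) * wt r θ S = ((m : ℝ) * θ ^ 2) * θ ^ (r - 1) := by
        rw [wt, if_pos heq.le, heq]
        obtain ⟨q, rfl⟩ : ∃ q, r = q + 1 := ⟨r - 1, by omega⟩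
        simp only [Nat.add_sub_cancel]
        ring
      rw [h3]
      refine le_trans ?_ h1
      rw [h2]
      exact mul_le_mul_of_nonneg_right hr (by positivity)
  · rw [wt, if_neg (by omega), mul_zero]
    exact Finset.sum_nonneg (fun i _ => wt_nonneg r hθ0.le _)

variable {W : Type*} [AddCommGroup W] [Module (ZMod 2) W]

/-- The character of a subset of the block. -/
noncomputable def eS (s : Fin m → (W →ₗ[ZMod 2] ZMod 2)) (S : Finset (Fin m)) : W → ℝ :=
  ∏ i ∈ S, chi (s i)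

theorem eS_mem (s : Fin m → (W →ₗ[ZMod 2] ZMod 2)) (S : Finset (Fin m)) : eS s S ∈ PD W :=
  prod_mem (fun _ _ => chi_mem _)

theorem chi_mul_eS (s : Fin m → (W →ₗ[ZMod 2] ZMod 2)) (i : Fin m) (S : Finset (Fin m)) :
    chi (s i) * eS s S = eS s (flip i S) := by
  unfold flip eS
  by_cases h : i ∈ S
  · rw [if_pos h, ← Finset.mul_prod_erase S _ h, ← mul_assoc, chi_mul_self, one_mul]
  · rw [if_neg h, Finset.prod_insert h]

/-- The test function of a block. -/
noncomputable def gB (s : Fin m → (W →ₗ[ZMod 2] ZMod 2)) (r : ℕ) (θ : ℝ) : W → ℝ :=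
  ∑ S : Finset (Fin m), wt r θ S • eS s S

theorem gB_mem (s : Fin m → (W →ₗ[ZMod 2] ZMod 2)) (r : ℕ) {θ : ℝ} (hθ : 0 ≤ θ) :
    gB s r θ ∈ PD W :=
  sum_mem (fun S _ => smul_mem' (wt_nonneg r hθ S) (eS_mem s S))

theorem sum_chi_mul_gB (s : Fin m → (W →ₗ[ZMod 2] ZMod 2)) (r : ℕ) (θ : ℝ) :
    (∑ i, chi (s i)) * gB s r θ = ∑ S : Finset (Fin m), (∑ i, wt r θ (flip i S)) • eS s S := by
  unfold gB
  rw [Finset.sum_mul]
  simp only [Finset.mul_sum, Finset.sum_smul]
  rw [Finset.sum_comm (s := (univ : Finset (Finset (Fin m))))]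
  refine Finset.sum_congr rfl (fun i _ => ?_)
  have h1 : ∀ S : Finset (Fin m), chi (s i) * wt r θ S • eS s S =
      wt r θ S • eS s (flip i S) := by
    intro S
    rw [mul_smul_comm, chi_mul_eS]
  rw [Finset.sum_congr rfl (fun S _ => h1 S)]
  refine Fintype.sum_equiv (flip_flip i).toPerm _ _ (fun S => ?_)
  simp only [Function.Involutive.coe_toPerm]
  rw [flip_flip i S]

/-- The linear statistic `m + ∑ s_i` of a block. -/
noncomputable def tB (s : Fin m → (W →ₗ[ZMod 2] ZMod 2)) : W → ℝ :=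
  (m : ℝ) • 1 + ∑ i, chi (s i)

theorem tB_mem (s : Fin m → (W →ₗ[ZMod 2] ZMod 2)) : tB s ∈ PD W :=
  add_mem (smul_mem' (Nat.cast_nonneg m) (one_mem _)) (sum_mem (fun _ _ => chi_mem _))

theorem block_mem (s : Fin m → (W →ₗ[ZMod 2] ZMod 2)) (r : ℕ) {θ : ℝ} (hθ0 : 0 < θ)
    (hθ1 : θ ≤ 1) (hr : (m : ℝ) * θ ^ 2 ≤ r) :
    (tB s - (m + θ * m : ℝ) • 1) * gB s r θ ∈ PD W := by
  have h1 : (tB s - (m + θ * m : ℝ) • 1) * gB s r θ =
      ∑ S : Finset (Fin m), ((∑ i, wt r θ (flip i S)) - (θ * m) * wt r θ S) • eS s S := by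
    have h2 : (tB s - (m + θ * m : ℝ) • 1) * gB s r θ =
        (∑ i, chi (s i)) * gB s r θ - (θ * m : ℝ) • gB s r θ := by
      unfold tB
      funext w
      simp only [Pi.mul_apply, Pi.sub_apply, Pi.add_apply, Pi.smul_apply, Pi.one_apply,
        smul_eq_mul]
      ring
    rw [h2, sum_chi_mul_gB, gB, Finset.smul_sum, ← Finset.sum_sub_distrib]
    refine Finset.sum_congr rfl (fun S _ => ?_)
    simp only [sub_smul, mul_smul]
  rw [h1]
  exact sum_mem (fun S _ => smul_mem' (sub_nonneg.2 (sum_wt_flip r hθ0 hθ1 hr S)) (eS_mem s S))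

end Pool.Agent.W_MP_6a62c9_co
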