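import Mathlib

/-!
The cone of positive definite functions on a finite elementary abelian 2-group, and the
multi-block linear programming bound.
-/

namespace Pool.Agent.W_MP_6a62c9_co

open Finset NNReal

/-- The sign character of `F₂`. -/
def sg (a : ZMod 2) : ℝ := if a = 0 then 1 else -1

theorem sg_zero : sg 0 = 1 := by simp [sg]

theorem two_cases (a : ZMod 2) : a = 0 ∨ a = 1 := by revert a; decide

theorem sg_one : sg 1 = -1 := by simp [sg]

theorem sg_add (a b : ZMod 2) : sg (a + b) = sg a * sg b := by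
  rcases two_cases a with rfl | rfl <;> rcases two_cases b with rfl | rfl
  · simp [sg_zero]
  · simp [sg_zero, sg_one]
  · simp [sg_zero, sg_one]
  · have : (1 : ZMod 2) + 1 = 0 := by decide
    rw [this]; simp [sg_zero, sg_one]

theorem sg_mul_self (a : ZMod 2) : sg a * sg a = 1 := by
  rcases two_cases a with rfl | rfl <;> simp [sg_zero, sg_one]

variable {W : Type*} [AddCommGroup W] [Module (ZMod 2) W]

/-- The real character attached to a linear functional. -/
def chi (ξ : W →ₗ[ZMod 2] ZMod 2) : W → ℝ := fun w => sg (ξ w)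

theorem chi_mul_self (ξ : W →ₗ[ZMod 2] ZMod 2) : chi ξ * chi ξ = 1 := by
  funext w
  simp only [chi, Pi.mul_apply, Pi.one_apply]
  exact sg_mul_self _

/-- The cone of positive definite functions. -/
noncomputable def PD (W : Type*) [AddCommGroup W] [Module (ZMod 2) W] :
    Subalgebra ℝ≥0 (W → ℝ) :=
  Algebra.adjoin ℝ≥0 (Set.range (chi : (W →ₗ[ZMod 2] ZMod 2) → (W → ℝ)))

theorem chi_mem (ξ : W →ₗ[ZMod 2] ZMod 2) : chi ξ ∈ PD W :=
  Algebra.subset_adjoin ⟨ξ, rfl⟩

theorem smul_mem' {c : ℝ} (hc : 0 ≤ c) {h : W → ℝ} (hh : h ∈ PD W) : c • h ∈ PD W := by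
  exact (PD W).smul_mem hh (⟨c, hc⟩ : ℝ≥0)

theorem closure_chi {h : W → ℝ}
    (hh : h ∈ Submonoid.closure (Set.range (chi : (W →ₗ[ZMod 2] ZMod 2) → (W → ℝ)))) :
    ∃ ξ, h = chi ξ := by
  induction hh using Submonoid.closure_induction with
  | mem x hx => obtain ⟨ξ, rfl⟩ := hx; exact ⟨ξ, rfl⟩
  | one => exact ⟨0, by funext w; simp [chi, sg_zero]⟩
  | mul x y _ _ hx hy =>
    obtain ⟨ξ, rfl⟩ := hx
    obtain ⟨η, rfl⟩ := hy
    exact ⟨ξ + η, by funext w; simp [chi, sg_add]⟩

variable [Fintype W]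

theorem sum_chi_nonneg (ξ : W →ₗ[ZMod 2] ZMod 2) : 0 ≤ ∑ w, chi ξ w := by
  by_cases h : ∃ w₀, ξ w₀ = 1
  · obtain ⟨w₀, hw₀⟩ := h
    have : ∑ w, chi ξ w = ∑ w, chi ξ (w + w₀) :=
      (Fintype.sum_equiv (Equiv.addRight w₀) _ _ (fun w => rfl)).symm
    have h2 : ∑ w, chi ξ (w + w₀) = - ∑ w, chi ξ w := by
      rw [← Finset.sum_neg_distrib]
      refine Finset.sum_congr rfl (fun w _ => ?_)
      simp only [chi, map_add, sg_add, hw₀, sg_one]
      ring
    linarith
  · push Not at h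
    refine Finset.sum_nonneg (fun w _ => ?_)
    rcases two_cases (ξ w) with h1 | h1
    · simp [chi, h1, sg_zero]
    · exact absurd h1 (h w)

theorem sum_nonneg_of_mem {h : W → ℝ} (hh : h ∈ PD W) : 0 ≤ ∑ w, h w := by
  have h1 : h ∈ Submodule.span ℝ≥0
      (Submonoid.closure (Set.range (chi : (W →ₗ[ZMod 2] ZMod 2) → (W → ℝ))) : Set (W → ℝ)) := by
    rw [← Algebra.adjoin_eq_span]
    exact hh
  clear hh
  induction h1 using Submodule.span_induction with
  | mem x hx =>
    obtain ⟨ξ, rfl⟩ := closure_chi hx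
    exact sum_chi_nonneg ξ
  | zero => simp
  | add x y _ _ hx hy =>
    simp only [Pi.add_apply, Finset.sum_add_distrib]
    linarith
  | smul a x _ hx =>
    have : ∑ w, (a • x) w = (a : ℝ) * ∑ w, x w := by
      rw [Finset.mul_sum]
      rfl
    rw [this]
    exact mul_nonneg a.2 hx

end Pool.Agent.W_MP_6a62c9_co
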