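import Mathlib

/-!
The counting argument: there is a tuple of matrices `A_j` such that for every injective `I`
some `A_j I` has large rank.
-/

namespace Pool.Agent.W_MP_6a62c9_co

open Finset

theorem card_mat (a b : ℕ) : Fintype.card (Matrix (Fin a) (Fin b) (ZMod 2)) = 2 ^ (a * b) := by
  have h : Fintype.card (Matrix (Fin a) (Fin b) (ZMod 2)) =
      Fintype.card (Fin a → Fin b → ZMod 2) := Fintype.card_congr (Equiv.refl _)
  rw [h, Fintype.card_fun, Fintype.card_fun, ZMod.card, Fintype.card_fin, Fintype.card_fin,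
    ← pow_mul, mul_comm b a]

/-- For an injective `I`, the number of `A` such that `A I ∈ S` is the expected one. -/
theorem card_comp_mem {m n k : ℕ} (I : Matrix (Fin n) (Fin k) (ZMod 2))
    (J : Matrix (Fin k) (Fin n) (ZMod 2)) (hJ : J * I = 1)
    (S : Finset (Matrix (Fin m) (Fin k) (ZMod 2))) :
    (univ.filter (fun A : Matrix (Fin m) (Fin n) (ZMod 2) => A * I ∈ S)).card * 2 ^ (m * k) =
      2 ^ (m * n) * S.card := by
  classical
  have hcard := card_mat
  have h1 : ∀ B : Matrix (Fin m) (Fin k) (ZMod 2),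
      (univ.filter (fun A : Matrix (Fin m) (Fin n) (ZMod 2) => A * I + B ∈ S)).card =
      (univ.filter (fun A : Matrix (Fin m) (Fin n) (ZMod 2) => A * I ∈ S)).card := by
    intro B
    refine Finset.card_bij' (fun A _ => A + B * J) (fun A _ => A - B * J) ?_ ?_ ?_ ?_
    · intro A hA
      rw [Finset.mem_filter] at hA ⊢
      refine ⟨Finset.mem_univ _, ?_⟩
      rw [Matrix.add_mul, Matrix.mul_assoc, hJ, Matrix.mul_one]
      exact hA.2
    · intro A hA
      rw [Finset.mem_filter] at hA ⊢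
      refine ⟨Finset.mem_univ _, ?_⟩
      rw [Matrix.sub_mul, Matrix.mul_assoc, hJ, Matrix.mul_one, sub_add_cancel]
      exact hA.2
    · intro A _
      simp
    · intro A _
      simp
  have h2 : ∑ B : Matrix (Fin m) (Fin k) (ZMod 2),
      (univ.filter (fun A : Matrix (Fin m) (Fin n) (ZMod 2) => A * I + B ∈ S)).card =
      ∑ A : Matrix (Fin m) (Fin n) (ZMod 2),
        (univ.filter (fun B : Matrix (Fin m) (Fin k) (ZMod 2) => A * I + B ∈ S)).card := by
    simp only [Finset.card_filter]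
    rw [Finset.sum_comm]
  have h3 : ∀ A : Matrix (Fin m) (Fin n) (ZMod 2),
      (univ.filter (fun B : Matrix (Fin m) (Fin k) (ZMod 2) => A * I + B ∈ S)).card = S.card := by
    intro A
    refine Finset.card_bij' (fun B _ => A * I + B) (fun B _ => B - A * I) ?_ ?_ ?_ ?_
    · intro B hB
      exact (Finset.mem_filter.1 hB).2
    · intro B hB
      rw [Finset.mem_filter]
      refine ⟨Finset.mem_univ _, ?_⟩
      rw [add_sub_cancel]
      exact hB
    · intro B _
      simp
    · intro B _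
      simp
  rw [Finset.sum_congr rfl (fun B _ => h1 B), Finset.sum_congr rfl (fun A _ => h3 A)] at h2
  simp only [Finset.sum_const, Finset.card_univ, smul_eq_mul, hcard] at h2
  rw [mul_comm, h2]

theorem exists_good {n m k r M : ℕ}
    (h : n * k + M * (r * (m + k)) < M * (m * k)) :
    ∃ A : Fin M → Matrix (Fin m) (Fin n) (ZMod 2), ∀ I : Matrix (Fin n) (Fin k) (ZMod 2),
      (∃ J : Matrix (Fin k) (Fin n) (ZMod 2), J * I = 1) → ∃ j : Fin M,
        ∀ (P : Matrix (Fin m) (Fin r) (ZMod 2)) (Q : Matrix (Fin r) (Fin k) (ZMod 2)),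
          A j * I ≠ P * Q := by
  classical
  have hcard := card_mat
  by_contra hcon
  push Not at hcon
  -- the set of low rank matrices
  set S : Finset (Matrix (Fin m) (Fin k) (ZMod 2)) :=
    univ.image (fun PQ : Matrix (Fin m) (Fin r) (ZMod 2) × Matrix (Fin r) (Fin k) (ZMod 2) =>
      PQ.1 * PQ.2) with hS
  have hScard : S.card ≤ 2 ^ (r * (m + k)) := by
    refine le_trans Finset.card_image_le ?_
    rw [Finset.card_univ, Fintype.card_prod, hcard, hcard, ← pow_add]
    exact le_of_eq (by ring_nf)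
  -- bad sets
  set Bad : Matrix (Fin n) (Fin k) (ZMod 2) → Finset (Matrix (Fin m) (Fin n) (ZMod 2)) :=
    fun I => univ.filter (fun A => A * I ∈ S) with hBad
  have hcover : (univ : Finset (Fin M → Matrix (Fin m) (Fin n) (ZMod 2))) ⊆
      (univ.filter (fun I : Matrix (Fin n) (Fin k) (ZMod 2) =>
        ∃ J : Matrix (Fin k) (Fin n) (ZMod 2), J * I = 1)).biUnion
        (fun I => Fintype.piFinset (fun _ : Fin M => Bad I)) := by
    intro A _
    obtain ⟨I, hI, hA⟩ := hcon A
    rw [Finset.mem_biUnion]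
    refine ⟨I, Finset.mem_filter.2 ⟨Finset.mem_univ _, hI⟩, ?_⟩
    rw [Fintype.mem_piFinset]
    intro j
    obtain ⟨P, Q, hPQ⟩ := hA j
    rw [hBad, Finset.mem_filter]
    refine ⟨Finset.mem_univ _, ?_⟩
    rw [hS, Finset.mem_image]
    exact ⟨(P, Q), Finset.mem_univ _, hPQ.symm⟩
  have h1 := Finset.card_le_card hcover
  rw [Finset.card_univ, Fintype.card_fun, hcard, Fintype.card_fin] at h1
  have h2 := le_trans h1 Finset.card_biUnion_le
  have h3 : ∀ I ∈ (univ.filter (fun I : Matrix (Fin n) (Fin k) (ZMod 2) =>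
        ∃ J : Matrix (Fin k) (Fin n) (ZMod 2), J * I = 1)),
      (Fintype.piFinset (fun _ : Fin M => Bad I)).card * 2 ^ (M * (m * k)) ≤
        2 ^ (M * (m * n)) * 2 ^ (M * (r * (m + k))) := by
    intro I hI
    obtain ⟨J, hJ⟩ := (Finset.mem_filter.1 hI).2
    rw [Fintype.card_piFinset]
    simp only [Finset.prod_const, Finset.card_univ, Fintype.card_fin]
    have h4 : (Bad I).card * 2 ^ (m * k) ≤ 2 ^ (m * n) * 2 ^ (r * (m + k)) := by
      have := card_comp_mem I J hJ S
      rw [hBad]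
      simp only
      rw [this]
      exact Nat.mul_le_mul_left _ hScard
    calc (Bad I).card ^ M * 2 ^ (M * (m * k)) = ((Bad I).card * 2 ^ (m * k)) ^ M := by
          rw [mul_pow, ← pow_mul, mul_comm M (m * k)]
      _ ≤ (2 ^ (m * n) * 2 ^ (r * (m + k))) ^ M := Nat.pow_le_pow_left h4 M
      _ = _ := by
          rw [mul_pow, ← pow_mul, ← pow_mul, mul_comm M (m * n), mul_comm M (r * (m + k))]
  have h5 : (∑ I ∈ (univ.filter (fun I : Matrix (Fin n) (Fin k) (ZMod 2) =>
        ∃ J : Matrix (Fin k) (Fin n) (ZMod 2), J * I = 1)),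
      (Fintype.piFinset (fun _ : Fin M => Bad I)).card) * 2 ^ (M * (m * k)) ≤
        2 ^ (n * k) * (2 ^ (M * (m * n)) * 2 ^ (M * (r * (m + k)))) := by
    rw [Finset.sum_mul]
    refine le_trans (Finset.sum_le_sum h3) ?_
    rw [Finset.sum_const, smul_eq_mul]
    refine Nat.mul_le_mul_right _ ?_
    refine le_trans (Finset.card_filter_le _ _) ?_
    rw [Finset.card_univ, hcard]
  have h6 : (2 ^ (m * n)) ^ M * 2 ^ (M * (m * k)) ≤
      2 ^ (n * k) * (2 ^ (M * (m * n)) * 2 ^ (M * (r * (m + k)))) :=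
    le_trans (Nat.mul_le_mul_right _ h2) h5
  have h7 : 2 ^ (m * n * M + M * (m * k)) ≤ 2 ^ (n * k + (M * (m * n) + M * (r * (m + k)))) := by
    rw [pow_add, pow_add, pow_add, pow_mul 2 (m * n) M]
    exact h6
  have h8 := (Nat.pow_le_pow_iff_right (by norm_num : 1 < 2)).1 h7
  have h9 : m * n * M = M * (m * n) := by ring
  omega

end Pool.Agent.W_MP_6a62c9_co
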