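import Pool.Agent.W_MP_6a62c9_co.Block

/-!
The multi-block linear programming bound.
-/

namespace Pool.Agent.W_MP_6a62c9_co

open Finset NNReal

variable {m M : ℕ} {W : Type*} [AddCommGroup W] [Module (ZMod 2) W] [Fintype W]

/-- The product test function. -/
noncomputable def GG (T : Fin M → Fin m → (W →ₗ[ZMod 2] ZMod 2)) (r : ℕ) (θ : ℝ) : W → ℝ :=
  ∏ j, gB (T j) r θ

omit [Fintype W] in
theorem GG_mem (T : Fin M → Fin m → (W →ₗ[ZMod 2] ZMod 2)) (r : ℕ) {θ : ℝ} (hθ : 0 ≤ θ) :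
    GG T r θ ∈ PD W :=
  prod_mem (fun _ _ => gB_mem _ r hθ)

/-- The functional `S(R) = ∑_w R(w) G(w)²`. -/
noncomputable def SS (T : Fin M → Fin m → (W →ₗ[ZMod 2] ZMod 2)) (r : ℕ) (θ : ℝ)
    (R : W → ℝ) : ℝ := ∑ w, (R * (GG T r θ * GG T r θ)) w

theorem SS_step (T : Fin M → Fin m → (W →ₗ[ZMod 2] ZMod 2)) (r : ℕ) {θ : ℝ} (hθ0 : 0 < θ)
    (hθ1 : θ ≤ 1) (hr : (m : ℝ) * θ ^ 2 ≤ r) (j : Fin M) {R : W → ℝ} (hR : R ∈ PD W) :
    (m + θ * m : ℝ) * SS T r θ R ≤ SS T r θ (tB (T j) * R) := by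
  have h1 : SS T r θ (tB (T j) * R) - (m + θ * m : ℝ) * SS T r θ R =
      ∑ w, (((tB (T j) - (m + θ * m : ℝ) • 1) * gB (T j) r θ) *
        (gB (T j) r θ * ((∏ i ∈ univ.erase j, gB (T i) r θ) *
          (∏ i ∈ univ.erase j, gB (T i) r θ))) * R) w := by
    unfold SS
    rw [Finset.mul_sum, ← Finset.sum_sub_distrib]
    refine Finset.sum_congr rfl (fun w _ => ?_)
    have hG : GG T r θ = gB (T j) r θ * ∏ i ∈ univ.erase j, gB (T i) r θ :=
      (Finset.mul_prod_erase univ _ (Finset.mem_univ j)).symm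
    rw [hG]
    simp only [Pi.mul_apply, Pi.sub_apply, Pi.smul_apply, Pi.one_apply, smul_eq_mul]
    ring
  have h2 : 0 ≤ SS T r θ (tB (T j) * R) - (m + θ * m : ℝ) * SS T r θ R := by
    rw [h1]
    apply sum_nonneg_of_mem
    refine mul_mem (mul_mem (block_mem _ r hθ0 hθ1 hr) (mul_mem (gB_mem _ r hθ0.le) ?_)) hR
    exact mul_mem (prod_mem (fun _ _ => gB_mem _ r hθ0.le))
      (prod_mem (fun _ _ => gB_mem _ r hθ0.le))
  linarith

theorem SS_pow (T : Fin M → Fin m → (W →ₗ[ZMod 2] ZMod 2)) (r : ℕ) {θ : ℝ} (hθ0 : 0 < θ)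
    (hθ1 : θ ≤ 1) (hr : (m : ℝ) * θ ^ 2 ≤ r) (j : Fin M) {R : W → ℝ} (hR : R ∈ PD W) (p : ℕ) :
    (m + θ * m : ℝ) ^ p * SS T r θ R ≤ SS T r θ (tB (T j) ^ p * R) := by
  induction p with
  | zero => simp
  | succ p ih =>
    have h1 := SS_step T r hθ0 hθ1 hr j (mul_mem (pow_mem (tB_mem (T j)) p) hR)
    have h0 : (0 : ℝ) ≤ m + θ * m := by positivity
    calc (m + θ * m : ℝ) ^ (p + 1) * SS T r θ R
        = (m + θ * m : ℝ) * ((m + θ * m : ℝ) ^ p * SS T r θ R) := by ring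
      _ ≤ (m + θ * m : ℝ) * SS T r θ (tB (T j) ^ p * R) := mul_le_mul_of_nonneg_left ih h0
      _ ≤ SS T r θ (tB (T j) * (tB (T j) ^ p * R)) := h1
      _ = SS T r θ (tB (T j) ^ (p + 1) * R) := by rw [← mul_assoc, ← pow_succ']

theorem SS_prod (T : Fin M → Fin m → (W →ₗ[ZMod 2] ZMod 2)) (r : ℕ) {θ : ℝ} (hθ0 : 0 < θ)
    (hθ1 : θ ≤ 1) (hr : (m : ℝ) * θ ^ 2 ≤ r) (p : ℕ) (J : Finset (Fin M)) :
    (m + θ * m : ℝ) ^ (p * J.card) * SS T r θ 1 ≤ SS T r θ (∏ j ∈ J, tB (T j) ^ p) := by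
  classical
  induction J using Finset.induction_on with
  | empty => simp
  | insert j J hj ih =>
    have h0 : (0 : ℝ) ≤ (m + θ * m) ^ p := by positivity
    rw [Finset.prod_insert hj, Finset.card_insert_of_notMem hj]
    have h1 := SS_pow T r hθ0 hθ1 hr j
      (prod_mem (fun i (_ : i ∈ J) => pow_mem (tB_mem (T i)) p)) p
    calc (m + θ * m : ℝ) ^ (p * (J.card + 1)) * SS T r θ 1
        = (m + θ * m : ℝ) ^ p * ((m + θ * m : ℝ) ^ (p * J.card) * SS T r θ 1) := by ring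
      _ ≤ _ := le_trans (mul_le_mul_of_nonneg_left ih h0) h1

/-- The ball: subsets of the block of size at most `r`. -/
def ball (m r : ℕ) : Finset (Finset (Fin m)) := univ.filter (fun S => S.card ≤ r)

/-- Product of the characters over all the blocks. -/
noncomputable def eY (T : Fin M → Fin m → (W →ₗ[ZMod 2] ZMod 2))
    (Y : Fin M → Finset (Fin m)) : W → ℝ := ∏ j, eS (T j) (Y j)

noncomputable def wY (M m r : ℕ) (θ : ℝ) (Y : Fin M → Finset (Fin m)) : ℝ := ∏ j, wt r θ (Y j)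

omit [Fintype W] in
theorem GG_eq (T : Fin M → Fin m → (W →ₗ[ZMod 2] ZMod 2)) (r : ℕ) (θ : ℝ) :
    GG T r θ = ∑ Y : Fin M → Finset (Fin m), wY M m r θ Y • eY T Y := by
  unfold GG gB
  rw [Finset.prod_univ_sum]
  rw [Fintype.piFinset_univ]
  refine Finset.sum_congr rfl (fun Y _ => ?_)
  unfold wY eY
  funext w
  simp only [Finset.prod_apply, Pi.smul_apply, smul_eq_mul, Finset.prod_mul_distrib]

omit [Fintype W] in
theorem eS_mul_self (s : Fin m → (W →ₗ[ZMod 2] ZMod 2)) (S : Finset (Fin m)) :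
    eS s S * eS s S = 1 := by
  unfold eS
  rw [← Finset.prod_mul_distrib]
  exact Finset.prod_eq_one (fun i _ => chi_mul_self _)

omit [Fintype W] in
theorem eY_mul_self (T : Fin M → Fin m → (W →ₗ[ZMod 2] ZMod 2)) (Y : Fin M → Finset (Fin m)) :
    eY T Y * eY T Y = 1 := by
  unfold eY
  rw [← Finset.prod_mul_distrib]
  exact Finset.prod_eq_one (fun i _ => eS_mul_self _ _)

theorem wY_nonneg (M m r : ℕ) {θ : ℝ} (hθ : 0 ≤ θ) (Y : Fin M → Finset (Fin m)) :
    0 ≤ wY M m r θ Y := Finset.prod_nonneg (fun _ _ => wt_nonneg r hθ _)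

/-- Lower bound for `S(1)`: the diagonal terms. -/
theorem SS_one_ge (T : Fin M → Fin m → (W →ₗ[ZMod 2] ZMod 2)) (r : ℕ) {θ : ℝ} (hθ : 0 ≤ θ) :
    (Fintype.card W : ℝ) * ∑ Y : Fin M → Finset (Fin m), wY M m r θ Y ^ 2 ≤ SS T r θ 1 := by
  have h1 : SS T r θ 1 = ∑ Y : Fin M → Finset (Fin m), ∑ Z : Fin M → Finset (Fin m),
      (wY M m r θ Y * wY M m r θ Z) * ∑ w, (eY T Y * eY T Z) w := by
    unfold SS
    have hw : ∀ w, ((1 : W → ℝ) * (GG T r θ * GG T r θ)) w = ∑ Y : Fin M → Finset (Fin m),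
        ∑ Z : Fin M → Finset (Fin m),
          (wY M m r θ Y * wY M m r θ Z) * (eY T Y * eY T Z) w := by
      intro w
      rw [GG_eq]
      simp only [Pi.mul_apply, Pi.one_apply, Finset.sum_apply, Pi.smul_apply, smul_eq_mul,
        one_mul]
      rw [Finset.sum_mul_sum]
      refine Finset.sum_congr rfl (fun Y _ => Finset.sum_congr rfl (fun Z _ => ?_))
      ring
    rw [Finset.sum_congr rfl (fun w _ => hw w), Finset.sum_comm]
    refine Finset.sum_congr rfl (fun Y _ => ?_)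
    rw [Finset.sum_comm]
    refine Finset.sum_congr rfl (fun Z _ => ?_)
    rw [Finset.mul_sum]
  rw [h1, Finset.mul_sum]
  refine Finset.sum_le_sum (fun Y _ => ?_)
  have h2 : (wY M m r θ Y * wY M m r θ Y) * ∑ w, (eY T Y * eY T Y) w ≤
      ∑ Z : Fin M → Finset (Fin m), (wY M m r θ Y * wY M m r θ Z) * ∑ w, (eY T Y * eY T Z) w := by
    refine Finset.single_le_sum (f := fun Z => (wY M m r θ Y * wY M m r θ Z) *
      ∑ w, (eY T Y * eY T Z) w) (fun Z _ => ?_) (Finset.mem_univ Y)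
    refine mul_nonneg (mul_nonneg (wY_nonneg _ _ _ hθ _) (wY_nonneg _ _ _ hθ _)) ?_
    refine sum_nonneg_of_mem (mul_mem ?_ ?_)
    · exact prod_mem (fun _ _ => eS_mem _ _)
    · exact prod_mem (fun _ _ => eS_mem _ _)
  refine le_trans (le_of_eq ?_) h2
  rw [eY_mul_self]
  simp only [Pi.one_apply, Finset.sum_const, Finset.card_univ, nsmul_eq_mul, mul_one]
  ring

omit [Fintype W] in
theorem GG_zero_sq_le (T : Fin M → Fin m → (W →ₗ[ZMod 2] ZMod 2)) (r : ℕ) (θ : ℝ) :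
    GG T r θ 0 ^ 2 ≤ ((ball m r).card : ℝ) ^ M *
      ∑ Y : Fin M → Finset (Fin m), wY M m r θ Y ^ 2 := by
  have h1 : GG T r θ 0 = ∑ Y : Fin M → Finset (Fin m), wY M m r θ Y := by
    rw [GG_eq]
    simp only [Finset.sum_apply, Pi.smul_apply, smul_eq_mul]
    refine Finset.sum_congr rfl (fun Y _ => ?_)
    have : eY T Y 0 = 1 := by
      unfold eY eS
      simp [Finset.prod_apply, chi, sg_zero]
    rw [this, mul_one]
  have h2 : ∑ Y : Fin M → Finset (Fin m), wY M m r θ Y =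
      ∑ Y ∈ Fintype.piFinset (fun _ : Fin M => ball m r), wY M m r θ Y := by
    symm
    refine Finset.sum_subset (Finset.subset_univ _) (fun Y _ hY => ?_)
    rw [Fintype.mem_piFinset] at hY
    push Not at hY
    obtain ⟨j, hj⟩ := hY
    refine Finset.prod_eq_zero (Finset.mem_univ j) ?_
    unfold wt
    rw [if_neg]
    intro hc
    exact hj (by simp [ball, hc])
  rw [h1, h2]
  have h3 := sq_sum_le_card_mul_sum_sq
    (s := Fintype.piFinset (fun _ : Fin M => ball m r)) (f := fun Y => wY M m r θ Y)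
  refine le_trans h3 ?_
  rw [Fintype.card_piFinset]
  simp only [Finset.prod_const, Finset.card_univ, Fintype.card_fin, Nat.cast_pow]
  refine mul_le_mul_of_nonneg_left ?_ (by positivity)
  exact Finset.sum_le_sum_of_subset_of_nonneg (Finset.subset_univ _) (fun Y _ _ => sq_nonneg _)

omit [Fintype W] in
theorem tB_nonneg (s : Fin m → (W →ₗ[ZMod 2] ZMod 2)) (w : W) : 0 ≤ tB s w := by
  unfold tB
  have h1 : ∀ i, -1 ≤ chi (s i) w := by
    intro i
    rcases two_cases (s i w) with h | h <;> simp [chi, h, sg_zero, sg_one]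
  have h2 : ∑ _i : Fin m, (-1 : ℝ) ≤ ∑ i, chi (s i) w := Finset.sum_le_sum (fun i _ => h1 i)
  simp only [Finset.sum_const, Finset.card_univ, Fintype.card_fin, nsmul_eq_mul] at h2
  simp only [Pi.add_apply, Pi.smul_apply, Pi.one_apply, smul_eq_mul, Finset.sum_apply]
  linarith

omit [Fintype W] in
theorem tB_zero (s : Fin m → (W →ₗ[ZMod 2] ZMod 2)) : tB s 0 = 2 * m := by
  unfold tB
  simp only [Pi.add_apply, Pi.smul_apply, Pi.one_apply, smul_eq_mul, Finset.sum_apply, chi,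
    map_zero, sg_zero, Finset.sum_const, Finset.card_univ, Fintype.card_fin, nsmul_eq_mul]
  ring

/-- The multi-block LP bound: if `W` is large then some nonzero `w` has a large statistic in
every block. -/
theorem lp_bound (T : Fin M → Fin m → (W →ₗ[ZMod 2] ZMod 2)) (r p g : ℕ) {θ : ℝ}
    (hm : 0 < m) (hθ0 : 0 < θ) (hθ1 : θ ≤ 1) (hr : (m : ℝ) * θ ^ 2 ≤ r)
    (hp : 2 * M * (m + g : ℝ) ^ p ≤ (m + θ * m) ^ p)
    (hW : 2 * 2 ^ (p * M) * ((ball m r).card : ℝ) ^ M < Fintype.card W) :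
    ∃ w : W, w ≠ 0 ∧ ∀ j, (m + g : ℝ) < tB (T j) w := by
  classical
  by_contra hcon
  push Not at hcon
  set R₀ : W → ℝ := ∏ j, tB (T j) ^ p with hR₀
  have hpos : (0 : ℝ) < m + θ * m := by positivity
  -- nonzero terms
  have h1 : ∀ w : W, w ≠ 0 → (R₀ * (GG T r θ * GG T r θ)) w ≤
      ∑ j, (m + g : ℝ) ^ p *
        ((∏ i ∈ univ.erase j, tB (T i) ^ p) * (GG T r θ * GG T r θ)) w := by
    intro w hw
    obtain ⟨j, hj⟩ := hcon w hw
    have hterm : ∀ j : Fin M, 0 ≤ (m + g : ℝ) ^ p *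
        ((∏ i ∈ univ.erase j, tB (T i) ^ p) * (GG T r θ * GG T r θ)) w := by
      intro j
      simp only [Pi.mul_apply, Finset.prod_apply, Pi.pow_apply]
      refine mul_nonneg (by positivity) (mul_nonneg ?_ (mul_self_nonneg _))
      exact Finset.prod_nonneg (fun i _ => pow_nonneg (tB_nonneg _ _) _)
    refine le_trans ?_ (Finset.single_le_sum (fun j _ => hterm j) (Finset.mem_univ j))
    have hR : R₀ = tB (T j) ^ p * ∏ i ∈ univ.erase j, tB (T i) ^ p :=
      (Finset.mul_prod_erase univ _ (Finset.mem_univ j)).symm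
    rw [hR]
    simp only [Pi.mul_apply, Finset.prod_apply, Pi.pow_apply]
    rw [mul_assoc]
    refine mul_le_mul_of_nonneg_right (pow_le_pow_left₀ (tB_nonneg _ _) hj p) ?_
    refine mul_nonneg ?_ (mul_self_nonneg _)
    exact Finset.prod_nonneg (fun i _ => pow_nonneg (tB_nonneg _ _) _)
  -- sum of the nonzero terms
  have h2 : ∑ w ∈ univ.erase (0 : W), (R₀ * (GG T r θ * GG T r θ)) w ≤
      ∑ j, (m + g : ℝ) ^ p * SS T r θ (∏ i ∈ univ.erase j, tB (T i) ^ p) := by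
    calc ∑ w ∈ univ.erase (0 : W), (R₀ * (GG T r θ * GG T r θ)) w
        ≤ ∑ w ∈ univ.erase (0 : W), ∑ j, (m + g : ℝ) ^ p *
          ((∏ i ∈ univ.erase j, tB (T i) ^ p) * (GG T r θ * GG T r θ)) w :=
          Finset.sum_le_sum (fun w hw => h1 w (Finset.ne_of_mem_erase hw))
      _ ≤ ∑ w : W, ∑ j, (m + g : ℝ) ^ p *
          ((∏ i ∈ univ.erase j, tB (T i) ^ p) * (GG T r θ * GG T r θ)) w := by
          refine Finset.sum_le_sum_of_subset_of_nonneg (Finset.subset_univ _) (fun w _ _ => ?_)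
          refine Finset.sum_nonneg (fun j _ => ?_)
          simp only [Pi.mul_apply, Finset.prod_apply, Pi.pow_apply]
          refine mul_nonneg (by positivity) (mul_nonneg ?_ (mul_self_nonneg _))
          exact Finset.prod_nonneg (fun i _ => pow_nonneg (tB_nonneg _ _) _)
      _ = _ := by
          rw [Finset.sum_comm]
          refine Finset.sum_congr rfl (fun j _ => ?_)
          unfold SS
          rw [Finset.mul_sum]
  have h3 : ∀ j : Fin M, (m + θ * m : ℝ) ^ p * SS T r θ (∏ i ∈ univ.erase j, tB (T i) ^ p) ≤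
      SS T r θ R₀ := by
    intro j
    have := SS_pow T r hθ0 hθ1 hr j
      (prod_mem (fun i (_ : i ∈ univ.erase j) => pow_mem (tB_mem (T i)) p)) p
    rw [Finset.mul_prod_erase univ (fun i => tB (T i) ^ p) (Finset.mem_univ j)] at this
    exact this
  have h4 : (0 : ℝ) ≤ SS T r θ R₀ := by
    unfold SS
    apply sum_nonneg_of_mem
    exact mul_mem (prod_mem (fun i _ => pow_mem (tB_mem (T i)) p))
      (mul_mem (GG_mem T r hθ0.le) (GG_mem T r hθ0.le))
  have h5 : ∑ j : Fin M, (m + g : ℝ) ^ p * SS T r θ (∏ i ∈ univ.erase j, tB (T i) ^ p) ≤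
      SS T r θ R₀ / 2 := by
    have hpp : (0 : ℝ) < (m + θ * m) ^ p := by positivity
    have h6 : ∀ j : Fin M, (m + g : ℝ) ^ p * SS T r θ (∏ i ∈ univ.erase j, tB (T i) ^ p) ≤
        (m + g : ℝ) ^ p * (SS T r θ R₀ / (m + θ * m) ^ p) := by
      intro j
      refine mul_le_mul_of_nonneg_left ?_ (by positivity)
      rw [le_div_iff₀ hpp]
      linarith [h3 j]
    refine le_trans (Finset.sum_le_sum (fun j _ => h6 j)) ?_
    simp only [Finset.sum_const, Finset.card_univ, Fintype.card_fin, nsmul_eq_mul]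
    have h7 : (M : ℝ) * ((m + g : ℝ) ^ p * (SS T r θ R₀ / (m + θ * m) ^ p)) =
        (2 * M * (m + g : ℝ) ^ p) * (SS T r θ R₀ / 2 / (m + θ * m) ^ p) := by ring
    rw [h7]
    calc (2 * M * (m + g : ℝ) ^ p) * (SS T r θ R₀ / 2 / (m + θ * m) ^ p)
        ≤ (m + θ * m) ^ p * (SS T r θ R₀ / 2 / (m + θ * m) ^ p) :=
          mul_le_mul_of_nonneg_right hp (by positivity)
      _ = SS T r θ R₀ / 2 := by field_simp
  have h8 : SS T r θ R₀ = (R₀ * (GG T r θ * GG T r θ)) 0 +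
      ∑ w ∈ univ.erase (0 : W), (R₀ * (GG T r θ * GG T r θ)) w :=
    (Finset.add_sum_erase univ _ (Finset.mem_univ (0 : W))).symm
  have h9 : SS T r θ R₀ ≤ 2 * (R₀ * (GG T r θ * GG T r θ)) 0 := by linarith
  have h10 : (R₀ * (GG T r θ * GG T r θ)) 0 = (2 * m : ℝ) ^ (p * M) * GG T r θ 0 ^ 2 := by
    simp only [Pi.mul_apply]
    have : R₀ 0 = (2 * m : ℝ) ^ (p * M) := by
      rw [hR₀]
      simp only [Finset.prod_apply, Pi.pow_apply, tB_zero, Finset.prod_const, Finset.card_univ,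
        Fintype.card_fin]
      rw [← pow_mul]
    rw [this]
    ring
  have h11 := SS_prod T r hθ0 hθ1 hr p (univ : Finset (Fin M))
  rw [Finset.card_univ, Fintype.card_fin] at h11
  have h12 := SS_one_ge T r hθ0.le
  have h13 := GG_zero_sq_le T r θ
  set Q : ℝ := ∑ Y : Fin M → Finset (Fin m), wY M m r θ Y ^ 2 with hQ
  have hQpos : 0 < Q := by
    refine Finset.sum_pos' (fun Y _ => sq_nonneg _) ⟨fun _ => ∅, Finset.mem_univ _, ?_⟩
    unfold wY wt
    simp
  have h14 : (m + θ * m : ℝ) ^ (p * M) * ((Fintype.card W : ℝ) * Q) ≤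
      2 * ((2 * m : ℝ) ^ (p * M) * (((ball m r).card : ℝ) ^ M * Q)) := by
    calc (m + θ * m : ℝ) ^ (p * M) * ((Fintype.card W : ℝ) * Q)
        ≤ (m + θ * m : ℝ) ^ (p * M) * SS T r θ 1 := mul_le_mul_of_nonneg_left h12 (by positivity)
      _ ≤ SS T r θ R₀ := h11
      _ ≤ 2 * (R₀ * (GG T r θ * GG T r θ)) 0 := h9
      _ = 2 * ((2 * m : ℝ) ^ (p * M) * GG T r θ 0 ^ 2) := by rw [h10]
      _ ≤ _ := by
          refine mul_le_mul_of_nonneg_left ?_ (by norm_num)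
          exact mul_le_mul_of_nonneg_left h13 (by positivity)
  have hmr : (0 : ℝ) < m := Nat.cast_pos.2 hm
  have h15 : (m : ℝ) ^ (p * M) ≤ (m + θ * m : ℝ) ^ (p * M) := by
    refine pow_le_pow_left₀ hmr.le ?_ _
    nlinarith
  have h16 : (m : ℝ) ^ (p * M) * ((Fintype.card W : ℝ) * Q) ≤
      (m : ℝ) ^ (p * M) * ((2 * 2 ^ (p * M) * ((ball m r).card : ℝ) ^ M) * Q) := by
    calc (m : ℝ) ^ (p * M) * ((Fintype.card W : ℝ) * Q)
        ≤ (m + θ * m : ℝ) ^ (p * M) * ((Fintype.card W : ℝ) * Q) :=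
          mul_le_mul_of_nonneg_right h15 (by positivity)
      _ ≤ _ := h14
      _ = _ := by rw [mul_pow]; ring
  have h17 : (Fintype.card W : ℝ) * Q ≤ (2 * 2 ^ (p * M) * ((ball m r).card : ℝ) ^ M) * Q :=
    le_of_mul_le_mul_left h16 (by positivity)
  have h18 : (Fintype.card W : ℝ) ≤ 2 * 2 ^ (p * M) * ((ball m r).card : ℝ) ^ M :=
    le_of_mul_le_mul_right h17 hQpos
  linarith

end Pool.Agent.W_MP_6a62c9_co
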