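import Mathlib

/-!
* a linear space of vectors of weight at most `w` has dimension at most `w`;
* a matrix of rank at most `r` is a product of an `m × r` and an `r × k` matrix;
* bound for the size of the Hamming ball.
-/

namespace Pool.Agent.W_MP_6a62c9_co

open Finset

theorem exists_weight_ge (m : ℕ) : ∀ (d : ℕ) (E : Type) [AddCommGroup E] [Module (ZMod 2) E]
    [FiniteDimensional (ZMod 2) E] (f : E →ₗ[ZMod 2] (Fin m → ZMod 2)),
    Function.Injective f → d ≤ Module.finrank (ZMod 2) E → ∀ a : Fin m → ZMod 2,
      ∃ e : E, d ≤ hammingNorm (a + f e) := by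
  intro d
  induction d with
  | zero => intro E _ _ _ f _ _ a; exact ⟨0, Nat.zero_le _⟩
  | succ d ih =>
    intro E _ _ _ f hf hd a
    -- a nonzero vector
    have hpos : 0 < Module.finrank (ZMod 2) E := by omega
    have : Nontrivial E := Module.finrank_pos_iff.1 hpos
    obtain ⟨v, hv⟩ := exists_ne (0 : E)
    have hfv : f v ≠ 0 := fun h => hv (hf (by rw [h, map_zero]))
    obtain ⟨i, hi⟩ := Function.ne_iff.1 hfv
    simp only [Pi.zero_apply] at hi
    have hi1 : f v i = 1 := by
      have : ∀ x : ZMod 2, x ≠ 0 → x = 1 := by decide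
      exact this _ hi
    -- the kernel of the coordinate
    let φ : E →ₗ[ZMod 2] ZMod 2 := (LinearMap.proj i).comp f
    have hrank : d ≤ Module.finrank (ZMod 2) (LinearMap.ker φ) := by
      have h1 := LinearMap.finrank_range_add_finrank_ker φ
      have h2 : Module.finrank (ZMod 2) (LinearMap.range φ) ≤ 1 := by
        have := Submodule.finrank_le (LinearMap.range φ)
        simpa using this
      omega
    have hinj : Function.Injective (f.comp (LinearMap.ker φ).subtype) := by
      intro x y hxy
      exact Subtype.ext (hf hxy)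
    -- choose v₁ with coordinate 1
    obtain ⟨v₁, hv₁⟩ : ∃ v₁ : E, (a + f v₁) i = 1 := by
      by_cases ha : a i = 1
      · exact ⟨0, by simp [ha]⟩
      · have ha0 : a i = 0 := by
          have : ∀ x : ZMod 2, x ≠ 1 → x = 0 := by decide
          exact this _ ha
        exact ⟨v, by simp [ha0, hi1]⟩
    obtain ⟨e, he⟩ := ih (LinearMap.ker φ) (f.comp (LinearMap.ker φ).subtype) hinj hrank
      (Function.update (a + f v₁) i 0)
    refine ⟨v₁ + e, ?_⟩
    have hei : f (e : E) i = 0 := by
      have := e.2
      rw [LinearMap.mem_ker] at this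
      exact this
    unfold hammingNorm at he ⊢
    have hsub : insert i (univ.filter (fun j => (Function.update (a + f v₁) i 0 +
        (f.comp (LinearMap.ker φ).subtype) e) j ≠ 0)) ⊆
        univ.filter (fun j => (a + f (v₁ + e)) j ≠ 0) := by
      intro j hj
      rw [Finset.mem_insert] at hj
      rw [Finset.mem_filter]
      refine ⟨Finset.mem_univ _, ?_⟩
      rcases hj with rfl | hj
      · rw [map_add]
        have : (a + (f v₁ + f (e : E))) j = (a + f v₁) j + f (e : E) j := by
          simp [add_assoc]
        rw [this, hv₁, hei]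
        simp
      · rw [Finset.mem_filter] at hj
        have hji : j ≠ i := by
          rintro rfl
          apply hj.2
          simp [hei]
        have h3 := hj.2
        rw [Pi.add_apply, Function.update_of_ne hji] at h3
        rw [map_add]
        intro h4
        apply h3
        rw [← h4]
        simp [add_assoc]
    have hni : i ∉ univ.filter (fun j => (Function.update (a + f v₁) i 0 +
        (f.comp (LinearMap.ker φ).subtype) e) j ≠ 0) := by
      rw [Finset.mem_filter]
      push Not
      intro _
      simp [hei]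
    have := Finset.card_le_card hsub
    rw [Finset.card_insert_of_notMem hni] at this
    omega

/-- A linear space all of whose vectors have weight at most `w` has dimension at most `w`. -/
theorem finrank_le_of_weight_le {m w : ℕ} (V : Submodule (ZMod 2) (Fin m → ZMod 2))
    (h : ∀ v ∈ V, hammingNorm v ≤ w) : Module.finrank (ZMod 2) V ≤ w := by
  obtain ⟨e, he⟩ := exists_weight_ge m (Module.finrank (ZMod 2) V) V V.subtype
    (Subtype.coe_injective) le_rfl 0
  rw [zero_add] at he
  exact le_trans he (h _ e.2)

/-- Factorization of a matrix of small rank. -/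
theorem exists_factor {m k r : ℕ} (L : Matrix (Fin m) (Fin k) (ZMod 2))
    (h : Module.finrank (ZMod 2) (LinearMap.range L.mulVecLin) ≤ r) :
    ∃ (P : Matrix (Fin m) (Fin r) (ZMod 2)) (Q : Matrix (Fin r) (Fin k) (ZMod 2)), L = P * Q := by
  set E := LinearMap.range L.mulVecLin with hE
  let e : E ≃ₗ[ZMod 2] (Fin (Module.finrank (ZMod 2) E) → ZMod 2) :=
    (Module.finBasis (ZMod 2) E).equivFun
  let S : (Fin r → ZMod 2) →ₗ[ZMod 2] E :=
    e.symm.toLinearMap.comp (LinearMap.funLeft (ZMod 2) (ZMod 2) (Fin.castLE h))
  have hS : Function.Surjective S := by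
    refine e.symm.surjective.comp ?_
    exact LinearMap.funLeft_surjective_of_injective _ _ _ (Fin.castLE_injective h)
  obtain ⟨σ, hσ⟩ := LinearMap.exists_rightInverse_of_surjective S (LinearMap.range_eq_top.2 hS)
  let Ql : (Fin k → ZMod 2) →ₗ[ZMod 2] (Fin r → ZMod 2) :=
    σ.comp (LinearMap.rangeRestrict L.mulVecLin)
  let Pl : (Fin r → ZMod 2) →ₗ[ZMod 2] (Fin m → ZMod 2) := E.subtype.comp S
  have hcomp : Pl.comp Ql = L.mulVecLin := by
    apply LinearMap.ext
    intro v
    have h1 : S (σ (LinearMap.rangeRestrict L.mulVecLin v)) =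
        LinearMap.rangeRestrict L.mulVecLin v := by
      have := LinearMap.congr_fun hσ (LinearMap.rangeRestrict L.mulVecLin v)
      simpa using this
    simp only [Pl, Ql, LinearMap.comp_apply, Submodule.subtype_apply]
    rw [h1]
    rfl
  refine ⟨LinearMap.toMatrix' Pl, LinearMap.toMatrix' Ql, ?_⟩
  rw [← LinearMap.toMatrix'_comp, hcomp]
  exact (LinearMap.toMatrix'_toLin' L).symm

/-- The number of sets of size at most `r`. -/
theorem ball_bound (m r : ℕ) {x : ℝ} (hx0 : 0 < x) (hx1 : x ≤ 1) :
    x ^ r * ((univ.filter (fun S : Finset (Fin m) => S.card ≤ r)).card : ℝ) ≤ (1 + x) ^ m := by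
  have h1 : (1 + x) ^ m = ∑ S : Finset (Fin m), x ^ S.card := by
    have := Finset.prod_add (fun _ : Fin m => x) (fun _ => (1 : ℝ)) univ
    simp only [Finset.prod_const, Finset.card_univ, Fintype.card_fin, one_pow, mul_one,
      Finset.powerset_univ] at this
    rw [add_comm 1 x, this]
  rw [h1]
  calc x ^ r * ((univ.filter (fun S : Finset (Fin m) => S.card ≤ r)).card : ℝ)
      = ∑ S ∈ univ.filter (fun S : Finset (Fin m) => S.card ≤ r), x ^ r := by
        rw [Finset.sum_const, nsmul_eq_mul]; ring
    _ ≤ ∑ S ∈ univ.filter (fun S : Finset (Fin m) => S.card ≤ r), x ^ S.card := by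
        refine Finset.sum_le_sum (fun S hS => ?_)
        exact pow_le_pow_of_le_one hx0.le hx1 (Finset.mem_filter.1 hS).2
    _ ≤ ∑ S : Finset (Fin m), x ^ S.card :=
        Finset.sum_le_sum_of_subset_of_nonneg (Finset.subset_univ _) (fun S _ _ => by positivity)

end Pool.Agent.W_MP_6a62c9_co
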