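import Pool.Agent.W_MP_6a62c9_co.LP
import Pool.Agent.W_MP_6a62c9_co.Weight
import Pool.Agent.W_MP_6a62c9_co.Count

/-!
The set `X = {x : |A_j x| ≤ τ for all j}`.
-/

namespace Pool.Agent.W_MP_6a62c9_co

open Finset
open scoped Pointwise

/-- The set defined by a tuple of matrices and a weight threshold. -/
def XX {n m M : ℕ} (A : Fin M → Matrix (Fin m) (Fin n) (ZMod 2)) (τ : ℕ) :
    Set (Fin n → ZMod 2) := {x | ∀ j, hammingNorm ((A j).mulVec x) ≤ τ}

/-- A subspace of dimension at least `k` receives an injective matrix. -/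
theorem exists_matrix {n k : ℕ} (W : Submodule (ZMod 2) (Fin n → ZMod 2))
    (h : k ≤ Module.finrank (ZMod 2) W) :
    ∃ (I : Matrix (Fin n) (Fin k) (ZMod 2)) (J : Matrix (Fin k) (Fin n) (ZMod 2)),
      J * I = 1 ∧ ∀ v, I.mulVec v ∈ W := by
  let b := Module.finBasis (ZMod 2) W
  let e : (Fin (Module.finrank (ZMod 2) W) → ZMod 2) ≃ₗ[ZMod 2] W := b.equivFun.symm
  -- injection of `Fin k → F₂` into `Fin d → F₂`
  let ext : (Fin k → ZMod 2) →ₗ[ZMod 2] (Fin (Module.finrank (ZMod 2) W) → ZMod 2) :=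
    { toFun := fun v i => if hi : (i : ℕ) < k then v ⟨i, hi⟩ else 0
      map_add' := by
        intro v w
        funext i
        by_cases hi : (i : ℕ) < k <;> simp [hi]
      map_smul' := by
        intro c v
        funext i
        by_cases hi : (i : ℕ) < k <;> simp [hi] }
  have hext : Function.Injective ext := by
    intro v w hvw
    funext i
    have h1 := congrFun hvw (Fin.castLE h i)
    simpa [ext] using h1
  let f : (Fin k → ZMod 2) →ₗ[ZMod 2] (Fin n → ZMod 2) :=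
    W.subtype.comp (e.toLinearMap.comp ext)
  have hf : Function.Injective f := by
    intro v w hvw
    apply hext
    apply e.injective
    exact Subtype.coe_injective hvw
  obtain ⟨g, hg⟩ := LinearMap.exists_leftInverse_of_injective f (LinearMap.ker_eq_bot.2 hf)
  refine ⟨LinearMap.toMatrix' f, LinearMap.toMatrix' g, ?_, ?_⟩
  · rw [← LinearMap.toMatrix'_comp, hg, LinearMap.toMatrix'_id]
  · intro v
    have : (LinearMap.toMatrix' f).mulVec v = f v := by
      rw [← Matrix.toLin'_apply, Matrix.toLin'_toMatrix']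
    rw [this]
    exact (e (ext v)).2

theorem hammingNorm_add_le' {m : ℕ} (a b : Fin m → ZMod 2) :
    hammingNorm (a + b) ≤ hammingNorm a + hammingNorm b := by
  unfold hammingNorm
  refine le_trans (Finset.card_le_card ?_) (Finset.card_union_le _ _)
  intro i hi
  rw [Finset.mem_filter] at hi
  rw [Finset.mem_union, Finset.mem_filter, Finset.mem_filter]
  by_contra hcon
  push Not at hcon
  apply hi.2
  rw [Pi.add_apply, hcon.1 (Finset.mem_univ _), hcon.2 (Finset.mem_univ _), add_zero]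

/-- No large subspace inside `X + X`. -/
theorem omega_bound {n m k M τ : ℕ} (A : Fin M → Matrix (Fin m) (Fin n) (ZMod 2))
    (hA : ∀ I : Matrix (Fin n) (Fin k) (ZMod 2),
      (∃ J : Matrix (Fin k) (Fin n) (ZMod 2), J * I = 1) → ∃ j : Fin M,
        ∀ (P : Matrix (Fin m) (Fin (2 * τ)) (ZMod 2))
          (Q : Matrix (Fin (2 * τ)) (Fin k) (ZMod 2)), A j * I ≠ P * Q)
    (W : Submodule (ZMod 2) (Fin n → ZMod 2))
    (hW : (W : Set (Fin n → ZMod 2)) \ {0} ⊆ XX A τ + XX A τ) :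
    Module.finrank (ZMod 2) W < k := by
  by_contra hcon
  push Not at hcon
  obtain ⟨I, J, hJ, hI⟩ := exists_matrix W hcon
  obtain ⟨j, hj⟩ := hA I ⟨J, hJ⟩
  have hrank : Module.finrank (ZMod 2) (LinearMap.range (A j * I).mulVecLin) ≤ 2 * τ := by
    apply finrank_le_of_weight_le
    rintro v ⟨u, rfl⟩
    rw [Matrix.mulVecLin_apply, ← Matrix.mulVec_mulVec]
    by_cases h0 : I.mulVec u = 0
    · rw [h0, Matrix.mulVec_zero]
      simp
    · obtain ⟨x, hx, y, hy, hxy⟩ := hW ⟨hI u, h0⟩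
      simp only at hxy
      rw [← hxy, Matrix.mulVec_add]
      have h1 := hx j
      have h2 := hy j
      have h3 : hammingNorm ((A j).mulVec x + (A j).mulVec y) ≤
          hammingNorm ((A j).mulVec x) + hammingNorm ((A j).mulVec y) := by
        exact hammingNorm_add_le' _ _
      omega
  obtain ⟨P, Q, hPQ⟩ := exists_factor (A j * I) hrank
  exact hj P Q hPQ

/-- Relation between the statistic of the LP bound and the Hamming weight. -/
theorem tB_eq {W : Type*} [AddCommGroup W] [Module (ZMod 2) W] {m : ℕ}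
    (s : Fin m → (W →ₗ[ZMod 2] ZMod 2)) (w : W) :
    tB s w = 2 * m - 2 * (hammingNorm (fun i => s i w) : ℝ) := by
  unfold tB
  simp only [Pi.add_apply, Pi.smul_apply, Pi.one_apply, smul_eq_mul, Finset.sum_apply, mul_one]
  have h1 : ∑ i, chi (s i) w = ∑ i : Fin m, ((1 : ℝ) - 2 * (if s i w ≠ 0 then 1 else 0)) := by
    refine Finset.sum_congr rfl (fun i _ => ?_)
    unfold chi sg
    by_cases h : s i w = 0
    · simp [h]
    · simp [h]; norm_num
  rw [h1, Finset.sum_sub_distrib, ← Finset.mul_sum]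
  unfold hammingNorm
  rw [Finset.card_filter]
  push_cast
  simp only [Finset.sum_const, Finset.card_univ, Fintype.card_fin, nsmul_eq_mul, mul_one]
  ring

/-- Every large subspace meets `X` outside zero. -/
theorem alpha_bound {n m k M τ r p g : ℕ} (A : Fin M → Matrix (Fin m) (Fin n) (ZMod 2))
    {θ : ℝ} (hm : 0 < m) (hθ0 : 0 < θ) (hθ1 : θ ≤ 1) (hr : (m : ℝ) * θ ^ 2 ≤ r)
    (hp : 2 * M * (m + g : ℝ) ^ p ≤ (m + θ * m) ^ p)
    (hk : 2 * 2 ^ (p * M) * ((ball m r).card : ℝ) ^ M < 2 ^ k)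
    (hg : m ≤ 2 * τ + g)
    (W : Submodule (ZMod 2) (Fin n → ZMod 2))
    (hW : (W : Set (Fin n → ZMod 2)) \ {0} ⊆ (XX A τ)ᶜ) :
    Module.finrank (ZMod 2) W < k := by
  by_contra hcon
  push Not at hcon
  obtain ⟨I, J, hJ, hI⟩ := exists_matrix W hcon
  let T : Fin M → Fin m → ((Fin k → ZMod 2) →ₗ[ZMod 2] ZMod 2) := fun j i =>
    (LinearMap.proj i).comp ((A j * I).mulVecLin)
  have hcard : (Fintype.card (Fin k → ZMod 2) : ℝ) = 2 ^ k := by
    rw [Fintype.card_fun, ZMod.card, Fintype.card_fin]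
    push_cast
    rfl
  obtain ⟨v, hv0, hv⟩ := lp_bound T r p g hm hθ0 hθ1 hr hp (by rw [hcard]; exact hk)
  have hx0 : I.mulVec v ≠ 0 := by
    intro h0
    apply hv0
    have h1 : J.mulVec (I.mulVec v) = v := by
      rw [Matrix.mulVec_mulVec, hJ, Matrix.one_mulVec]
    rw [← h1, h0, Matrix.mulVec_zero]
  apply hW ⟨hI v, hx0⟩
  intro j
  have h1 := hv j
  rw [tB_eq] at h1
  have h2 : (fun i => T j i v) = (A j).mulVec (I.mulVec v) := by
    funext i
    simp [T, Matrix.mulVec_mulVec]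
  rw [h2] at h1
  have h3 : (m : ℝ) ≤ 2 * τ + g := by exact_mod_cast hg
  have h4 : (hammingNorm ((A j).mulVec (I.mulVec v)) : ℝ) < τ := by linarith
  exact le_of_lt (by exact_mod_cast h4)

/-- Choice of the exponent `b`. -/
theorem exists_b (K : ℕ) : ∃ b : ℕ, 1 ≤ b ∧ 5 * K * (16 * b + 3) ≤ 3 * 2 ^ b := by
  refine ⟨2 * (60 * K + 1), by omega, ?_⟩
  set c := 60 * K + 1 with hc
  have h1 : c + 1 ≤ 2 ^ c := Nat.lt_two_pow_self
  have h2 : (c + 1) * (c + 1) ≤ 2 ^ (2 * c) := by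
    rw [two_mul, pow_add]
    exact Nat.mul_le_mul h1 h1
  have h3 : 5 * K * (16 * (2 * c) + 3) ≤ 3 * ((c + 1) * (c + 1)) := by
    rw [hc]
    nlinarith
  omega

/-- Bound for the Hamming ball with the chosen parameters. -/
theorem ball_card_le (b u : ℕ) :
    ((ball (2 * (2 ^ b) ^ 2 * u) (8 * u)).card : ℝ) ≤ 2 ^ ((16 * b + 3) * u) := by
  set N : ℝ := 2 ^ b with hN
  have hNpos : 0 < N := by positivity
  have hN1 : 1 ≤ N := one_le_pow₀ (by norm_num)
  have hx0 : 0 < 1 / N ^ 2 := by positivity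
  have hx1 : 1 / N ^ 2 ≤ 1 := by
    rw [div_le_one (by positivity)]
    exact one_le_pow₀ hN1
  have h1 := ball_bound (2 * (2 ^ b) ^ 2 * u) (8 * u) hx0 hx1
  have h2 : (1 + 1 / N ^ 2) ^ (2 * (2 ^ b) ^ 2 * u) ≤ 8 ^ u := by
    have h3 : 1 + 1 / N ^ 2 ≤ Real.exp (1 / N ^ 2) := by
      have := Real.add_one_le_exp (1 / N ^ 2)
      linarith
    have h4 : Real.exp 2 ≤ 8 := by
      have h5 : Real.exp 1 < 2.7182818286 := Real.exp_one_lt_d9
      have h6 : Real.exp 2 = Real.exp 1 ^ 2 := by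
        rw [← Real.exp_nat_mul]; norm_num
      rw [h6]
      have h7 : 0 < Real.exp 1 := Real.exp_pos 1
      nlinarith
    calc (1 + 1 / N ^ 2) ^ (2 * (2 ^ b) ^ 2 * u)
        ≤ (Real.exp (1 / N ^ 2)) ^ (2 * (2 ^ b) ^ 2 * u) :=
          pow_le_pow_left₀ (by positivity) h3 _
      _ = Real.exp 2 ^ u := by
          rw [← Real.exp_nat_mul, ← Real.exp_nat_mul]
          congr 1
          push_cast
          rw [← hN]
          field_simp
      _ ≤ 8 ^ u := pow_le_pow_left₀ (Real.exp_pos 2).le h4 u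
  have h8 : (1 / N ^ 2) ^ (8 * u) = 1 / 2 ^ (16 * b * u) := by
    rw [one_div_pow, hN, ← pow_mul, ← pow_mul]
    congr 2
    ring
  rw [h8] at h1
  have h9 : ((ball (2 * (2 ^ b) ^ 2 * u) (8 * u)).card : ℝ) / 2 ^ (16 * b * u) ≤ 8 ^ u := by
    refine le_trans (le_of_eq ?_) (le_trans h1 h2)
    unfold ball
    ring
  rw [div_le_iff₀ (by positivity)] at h9
  refine le_trans h9 (le_of_eq ?_)
  have h10 : (8 : ℝ) ^ u = 2 ^ (3 * u) := by
    rw [pow_mul]; norm_num
  rw [h10, ← pow_add]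
  congr 1
  ring

/-- The main construction. -/
theorem main_construction (K : ℕ) (hK : 1 ≤ K) (n₀ : ℕ) :
    ∃ k : ℕ, 0 < k ∧ n₀ ≤ K * k ∧ ∃ X : Set (Fin (K * k) → ZMod 2),
      (∀ W : Submodule (ZMod 2) (Fin (K * k) → ZMod 2),
        (W : Set (Fin (K * k) → ZMod 2)) \ {0} ⊆ Xᶜ → Module.finrank (ZMod 2) W < k) ∧
      (∀ W : Submodule (ZMod 2) (Fin (K * k) → ZMod 2),
        (W : Set (Fin (K * k) → ZMod 2)) \ {0} ⊆ X + X → Module.finrank (ZMod 2) W < k) := by
  obtain ⟨b, hb1, hb⟩ := exists_b K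
  obtain ⟨q, hq⟩ : ∃ q : ℕ, 2 ^ b = q + 1 := ⟨2 ^ b - 1, by
    have : 0 < 2 ^ b := by positivity
    omega⟩
  have hN2 : 2 ≤ 2 ^ b := by
    calc 2 = 2 ^ 1 := by norm_num
      _ ≤ 2 ^ b := Nat.pow_le_pow_right (by norm_num) hb1
  have hq1 : 1 ≤ q := by omega
  set N : ℕ := 2 ^ b with hNdef
  set M : ℕ := 5 * K * N ^ 2 with hM
  -- exponent `p`
  obtain ⟨p, hp⟩ : ∃ p : ℕ, 2 * (M : ℝ) * ((N + 1 : ℝ) / (N + 2)) ^ p ≤ 1 := by
    have hlt : ((N + 1 : ℝ) / (N + 2)) < 1 := by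
      rw [div_lt_one (by positivity)]
      linarith
    have hMpos : (0 : ℝ) < 2 * M := by
      have : 0 < M := by rw [hM]; positivity
      have : (0 : ℝ) < M := by exact_mod_cast this
      linarith
    obtain ⟨p, hp⟩ := exists_pow_lt_of_lt_one
      (show (0 : ℝ) < 1 / (2 * (M : ℝ)) by positivity) hlt
    refine ⟨p, ?_⟩
    rw [lt_div_iff₀ hMpos] at hp
    linarith
  -- the scale
  set u : ℕ := p * M + 2 + n₀ with hu
  have hu1 : 1 ≤ u := by omega
  set m : ℕ := 2 * N ^ 2 * u with hm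
  set k : ℕ := 4 * N ^ 3 * u with hk
  set τ : ℕ := N * q * u with hτ
  set g : ℕ := 2 * N * u with hg
  have hmpos : 0 < m := by rw [hm]; positivity
  have hkpos : 0 < k := by rw [hk]; positivity
  have hN1 : 1 ≤ N := by omega
  have hku : u ≤ k := by
    rw [hk]
    have : 1 ≤ N ^ 3 := Nat.one_le_pow _ _ hN1
    nlinarith
  -- the matrices
  have hcount : (K * k) * k + M * ((2 * τ) * (m + k)) < M * (m * k) := by
    have h1 : M * (m * k) = (K * k) * k + M * ((2 * τ) * (m + k)) +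
        (4 * K * N ^ 6 * u ^ 2 + 20 * K * N ^ 5 * u ^ 2) := by
      rw [hM, hm, hk, hτ, hq]
      ring
    have h2 : 0 < 4 * K * N ^ 6 * u ^ 2 := by positivity
    omega
  obtain ⟨A, hA⟩ := exists_good (n := K * k) (m := m) (k := k) (r := 2 * τ) (M := M) hcount
  refine ⟨k, hkpos, ?_, XX A τ, ?_, ?_⟩
  · have : k ≤ K * k := Nat.le_mul_of_pos_left k (by omega)
    omega
  · intro W hW
    have hNr : (0 : ℝ) < N := by exact_mod_cast (by omega : 0 < N)
    have hur : (0 : ℝ) < u := by exact_mod_cast (by omega : 0 < u)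
    refine alpha_bound (r := 8 * u) (p := p) (g := g) (θ := 2 / (N : ℝ)) A hmpos (by positivity)
      ?_ ?_ ?_ ?_ ?_ W hW
    · rw [div_le_one hNr]
      exact_mod_cast hN2
    · rw [hm]
      push_cast
      apply le_of_eq
      field_simp
      norm_num
    · -- 2 M (m+g)^p ≤ (m + θ m)^p
      have h1 : (m : ℝ) + g = (2 * N * u) * (N + 1) := by
        rw [hm, hg]; push_cast; ring
      have h2 : (m : ℝ) + 2 / (N : ℝ) * m = (2 * N * u) * (N + 2) := by
        rw [hm]; push_cast; field_simp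
      rw [h1, h2, mul_pow (2 * (N : ℝ) * u), mul_pow (2 * (N : ℝ) * u)]
      have h3 : (2 * (M : ℝ)) * (N + 1 : ℝ) ^ p ≤ (N + 2) ^ p := by
        have h4 : ((N + 1 : ℝ) / (N + 2)) ^ p = (N + 1 : ℝ) ^ p / (N + 2) ^ p := div_pow _ _ _
        rw [h4, ← mul_div_assoc, div_le_one (by positivity)] at hp
        exact hp
      have h5 : (0 : ℝ) ≤ (2 * N * u) ^ p := by positivity
      have h6 := mul_le_mul_of_nonneg_left h3 h5
      linarith
    · -- counting
      have h1 := ball_card_le b u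
      have h2 : ((ball m (8 * u)).card : ℝ) ^ M ≤ (2 ^ ((16 * b + 3) * u)) ^ M := by
        refine pow_le_pow_left₀ (Nat.cast_nonneg _) ?_ M
        rw [hm]
        exact h1
      have h3 : (2 : ℝ) * 2 ^ (p * M) * ((ball m (8 * u)).card : ℝ) ^ M ≤
          2 ^ (1 + p * M + (16 * b + 3) * u * M) := by
        rw [pow_add, pow_add, pow_mul 2 ((16 * b + 3) * u) M, pow_one]
        exact mul_le_mul_of_nonneg_left h2 (by positivity)
      refine lt_of_le_of_lt h3 ?_
      apply pow_lt_pow_right₀ (by norm_num)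
      have h4 : (16 * b + 3) * u * M ≤ 3 * N ^ 3 * u := by
        rw [hM]
        calc (16 * b + 3) * u * (5 * K * N ^ 2) = (5 * K * (16 * b + 3)) * (N ^ 2 * u) := by ring
          _ ≤ (3 * N) * (N ^ 2 * u) := Nat.mul_le_mul_right _ hb
          _ = 3 * N ^ 3 * u := by ring
      have h5 : u ≤ N ^ 3 * u := Nat.le_mul_of_pos_left u (by positivity)
      have h6 : k = 3 * N ^ 3 * u + N ^ 3 * u := by rw [hk]; ring
      omega
    · rw [hm, hτ, hg, hq]
      apply le_of_eq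
      ring
  · intro W hW
    exact omega_bound A hA W hW

end Pool.Agent.W_MP_6a62c9_co
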